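import Pool.Agent.Helper93.TCU.Stmts
import Pool.Agent.Helper93.TCU.Bas
import Pool.Agent.Helper3.TCS.J2
import Pool.Agent.Helper3.TCS.Near

/-!
# Bounded differences of `G2` (as `Pool.Agent.Helper3.TCS.J2`)
-/

set_option autoImplicit false

namespace Pool.TCU

open Pool.TC Pool.TCM Pool.TCS Finset
open scoped Classical

open Pool.TCS.J2 (card_diff Nc Nc_symm self_mem_Nc retv_act retv_coin retv_inl Aff cc2 cc2_nonneg
  cc2_loc)

namespace H80J2

section

variable {V κ : Type} [Fintype V] [Fintype κ]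

omit [Fintype κ] in
private theorem Nc_card {S : CS V κ} {U : Finset V} {L : V → Finset κ} {K : ℕ}
    {o : V → κ} (hG : Cho S U L K o) (u : V) :
    (Nc S U o u).card ≤ 2 * K + 1 := by
  by_cases hu : u ∈ U
  · have hsub : Nc S U o u ⊆ ({u} : Finset V) ∪ (KP S U o u (o u) ∪
        univ.filter (fun w => w ∈ U ∧ S.r w (o w) = S.r u (o u))) := by
      intro w hw
      unfold Nc at hw
      rw [mem_filter] at hw
      rcases hw.2 with h | ⟨_, h2, _, h3⟩
      · exact mem_union_left _ (mem_singleton.2 h)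
      · rcases h3 with ⟨h3, h4⟩ | h3
        · exact mem_union_right _ (mem_union_left _ (mem_filter.2 ⟨mem_univ _, h2, h3, h4.symm⟩))
        · exact mem_union_right _ (mem_union_right _ (mem_filter.2 ⟨mem_univ _, h2, h3.symm⟩))
    have h1 := hG.kP u hu (o u) (hG.mem u hu)
    have h2 := hG.kR (S.r u (o u))
    calc (Nc S U o u).card ≤ _ := card_le_card hsub
      _ ≤ _ := card_union_le _ _
      _ ≤ ({u} : Finset V).card + ((KP S U o u (o u)).card +
          (univ.filter (fun w => w ∈ U ∧ S.r w (o w) = S.r u (o u))).card) :=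
          Nat.add_le_add_left (card_union_le _ _) _
      _ ≤ 1 + (K + K) := by
          rw [card_singleton]
          exact Nat.add_le_add_left (Nat.add_le_add h1 h2) 1
      _ = 2 * K + 1 := by ring
  · have hsub : Nc S U o u ⊆ ({u} : Finset V) := by
      intro w hw
      unfold Nc at hw
      rw [mem_filter] at hw
      rcases hw.2 with h | ⟨h1, _⟩
      · exact mem_singleton.2 h
      · exact absurd h1 hu
    have := card_le_card hsub
    rw [card_singleton] at this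
    omega

private theorem Aff_card {S : CS V κ} {U : Finset V} {L : V → Finset κ} {D l m K : ℕ}
    {x : ℝ} {q : V → κ → ℝ} {Lam : ℝ} {o : V → κ} (h : Hyp S U L D l m K x q Lam) (v t : V) :
    (Aff S U L o v t).card ≤ 2 := by
  unfold Aff
  rw [filter_or]
  refine (card_union_le _ _).trans (Nat.add_le_add (b := 1) (d := 1) ?_ ?_)
  · rw [card_le_one]
    rintro ⟨a, b⟩ hp ⟨a', b'⟩ hp'
    unfold Cv at hp hp'
    simp only [mem_filter, mem_univ, true_and] at hp hp'
    obtain ⟨⟨h1, h2, h3⟩, h4⟩ := hp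
    obtain ⟨⟨h1', h2', h3'⟩, h4'⟩ := hp'
    subst h4
    subst h4'
    rw [h.inj2 _ h1 b h2 b' h2' (h3.trans h3'.symm)]
  · rw [card_le_one]
    rintro ⟨a, b⟩ hp ⟨a', b'⟩ hp'
    unfold Cv KP at hp hp'
    simp only [mem_filter, mem_univ, true_and] at hp hp'
    obtain ⟨⟨h1, h2, h3⟩, h4, h5, h6⟩ := hp
    obtain ⟨⟨h1', h2', h3'⟩, h4', h5', h6'⟩ := hp'
    subst h6
    subst h6'
    rw [S.inj a a' (o t) (h3.trans h3'.symm)]

private theorem Aff_sum {S : CS V κ} {U : Finset V} {L : V → Finset κ} {D l m K : ℕ}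
    {x : ℝ} {q : V → κ → ℝ} {Lam : ℝ} {o : V → κ} (h : Hyp S U L D l m K x q Lam)
    (hG : Cho S U L K o) (v : V) :
    ∑ t, ((Aff S U L o v t).card : ℝ) ≤ ((K : ℝ) + 1) * (2 * l) := by
  have h1 : ∑ t, ((Aff S U L o v t).card : ℝ) =
      ∑ p ∈ Cv S U L v, ((univ.filter (fun t => p.1 = t ∨ t ∈ KP S U o p.1 p.2)).card : ℝ) := by
    unfold Aff
    simp only [card_filter]
    push_cast
    rw [sum_comm]
  rw [h1]
  have h2 : ∀ p ∈ Cv S U L v,
      ((univ.filter (fun t => p.1 = t ∨ t ∈ KP S U o p.1 p.2)).card : ℝ) ≤ (K : ℝ) + 1 := by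
    intro p hp
    unfold Cv at hp
    rw [mem_filter] at hp
    have h3 := hG.kP p.1 hp.2.1 p.2 hp.2.2.1
    have h4 : (univ.filter (fun t => p.1 = t ∨ t ∈ KP S U o p.1 p.2)).card ≤ K + 1 := by
      have hsub : univ.filter (fun t => p.1 = t ∨ t ∈ KP S U o p.1 p.2) ⊆
          KP S U o p.1 p.2 ∪ {p.1} := by
        intro t ht
        rw [mem_filter] at ht
        rcases ht.2 with ht | ht
        · exact mem_union_right _ (mem_singleton.2 ht.symm)
        · exact mem_union_left _ ht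
      refine (card_le_card hsub).trans ((card_union_le _ _).trans ?_)
      rw [card_singleton]
      exact Nat.add_le_add_right h3 1
    exact_mod_cast h4
  have h5 := h.Cv2 v
  calc _ ≤ ∑ p ∈ Cv S U L v, ((K : ℝ) + 1) := sum_le_sum h2
    _ = ((K : ℝ) + 1) * (Cv S U L v).card := by rw [sum_const, nsmul_eq_mul, mul_comm]
    _ ≤ ((K : ℝ) + 1) * (2 * l) := mul_le_mul_of_nonneg_left h5 (by positivity)

private theorem cc2_bd {S : CS V κ} {U : Finset V} {L : V → Finset κ} {l m K : ℕ} {q : V → κ → ℝ} {o : V → κ}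
    (v : V) (t : Lab V κ) (ω ω' : Lab V κ → Fin (m ^ (2 * K + 1)))
    (h : ∀ t', t' ≠ t → ω t' = ω' t') :
    |G2 S U L l m K q o v ω - G2 S U L l m K q o v ω'| ≤ cc2 S U L o v t := by
  rcases t with (w | w) | (w | p0)
  · -- activity
    have hek : ∀ p : V × κ, ekv S U L l m K q o ω p.1 p.2 ↔ ekv S U L l m K q o ω' p.1 p.2 := by
      intro p
      have h1 : ω (Sum.inr (Sum.inr (p.1, p.2))) = ω' (Sum.inr (Sum.inr (p.1, p.2))) := by
        apply h
        intro hh
        cases hh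
      unfold ekv
      rw [h1]
    have h1 : ((Nc S U o w).biUnion (fun u => Aff S U L o v u)).card ≤
        ∑ u ∈ Nc S U o w, (Aff S U L o v u).card := card_biUnion_le
    have h1' : ((((Nc S U o w).biUnion (fun u => Aff S U L o v u)).card : ℕ) : ℝ) ≤
        ∑ u ∈ Nc S U o w, ((Aff S U L o v u).card : ℝ) := by exact_mod_cast h1
    refine le_trans ?_ h1'
    unfold G2
    apply card_diff
    intro p hp hpD
    have hpD' : ∀ u ∈ Nc S U o w, ¬ (p.1 = u ∨ u ∈ KP S U o p.1 p.2) := by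
      intro u hu hh
      exact hpD (mem_biUnion.2 ⟨u, hu, mem_filter.2 ⟨hp, hh⟩⟩)
    have h2 : retv S U o m K ω p.1 ↔ retv S U o m K ω' p.1 :=
      retv_act h (fun hu => hpD' p.1 hu (Or.inl rfl))
    have h3 : ∀ t ∈ KP S U o p.1 p.2, (retv S U o m K ω t ↔ retv S U o m K ω' t) :=
      fun t ht => retv_act h (fun hu => hpD' t hu (Or.inr ht))
    rw [h2, hek p]
    constructor
    · rintro ⟨a1, a2, a3⟩
      exact ⟨a1, fun t ht => (not_congr (h3 t ht)).1 (a2 t ht), a3⟩
    · rintro ⟨a1, a2, a3⟩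
      exact ⟨a1, fun t ht => (not_congr (h3 t ht)).2 (a2 t ht), a3⟩
  · -- coin
    have hek : ∀ p : V × κ, ekv S U L l m K q o ω p.1 p.2 ↔ ekv S U L l m K q o ω' p.1 p.2 := by
      intro p
      have h1 : ω (Sum.inr (Sum.inr (p.1, p.2))) = ω' (Sum.inr (Sum.inr (p.1, p.2))) := by
        apply h
        intro hh
        cases hh
      unfold ekv
      rw [h1]
    show _ ≤ ((Aff S U L o v w).card : ℝ)
    unfold G2
    apply card_diff
    intro p hp hpD
    have hpD' : ¬ (p.1 = w ∨ w ∈ KP S U o p.1 p.2) := fun hh => hpD (mem_filter.2 ⟨hp, hh⟩)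
    have h2 : retv S U o m K ω p.1 ↔ retv S U o m K ω' p.1 :=
      retv_coin h (fun hu => hpD' (Or.inl hu))
    have h3 : ∀ t ∈ KP S U o p.1 p.2, (retv S U o m K ω t ↔ retv S U o m K ω' t) :=
      fun t ht => retv_coin h (fun hu => hpD' (Or.inr (hu ▸ ht)))
    rw [h2, hek p]
    constructor
    · rintro ⟨a1, a2, a3⟩
      exact ⟨a1, fun t ht => (not_congr (h3 t ht)).1 (a2 t ht), a3⟩
    · rintro ⟨a1, a2, a3⟩
      exact ⟨a1, fun t ht => (not_congr (h3 t ht)).2 (a2 t ht), a3⟩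
  · -- blocking
    have hek : ∀ p : V × κ, ekv S U L l m K q o ω p.1 p.2 ↔ ekv S U L l m K q o ω' p.1 p.2 := by
      intro p
      have h1 : ω (Sum.inr (Sum.inr (p.1, p.2))) = ω' (Sum.inr (Sum.inr (p.1, p.2))) := by
        apply h
        intro hh
        have := Sum.inr_injective hh
        cases this
      unfold ekv
      rw [h1]
    have h1 : ∀ t, ω (Sum.inl t) = ω' (Sum.inl t) := by
      intro t
      apply h
      intro hh
      cases hh
    have h2 := retv_inl (S := S) (U := U) (o := o) h1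
    have hn : ∀ u a, nP S U o m K ω u a ↔ nP S U o m K ω' u a := by
      intro u a
      unfold nP
      simp only [h2]
    have h0 : ((∅ : Finset (V × κ)).card : ℝ) ≤ 0 := by simp
    refine le_trans ?_ h0
    unfold G2
    apply card_diff
    intro p hp hpD
    rw [h2, hek p, hn]
  · -- killing
    have h1 : ∀ t, ω (Sum.inl t) = ω' (Sum.inl t) := by
      intro t
      apply h
      intro hh
      cases hh
    have h2 := retv_inl (S := S) (U := U) (o := o) h1
    have h3 : (((Cv S U L v).filter (fun p => p = p0)).card : ℝ) ≤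
        if p0 ∈ Cv S U L v then 1 else 0 := by
      split_ifs with hp
      · have : ((Cv S U L v).filter (fun p => p = p0)).card ≤ 1 := by
          rw [card_le_one]
          intro a ha b hb
          rw [mem_filter] at ha hb
          rw [ha.2, hb.2]
        exact_mod_cast this
      · have : (Cv S U L v).filter (fun p => p = p0) = ∅ := by
          apply filter_eq_empty_iff.2
          intro p hp' hh
          exact hp (hh ▸ hp')
        rw [this]
        simp
    refine le_trans ?_ h3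
    unfold G2
    apply card_diff
    intro p hp hpD
    have hne : p ≠ p0 := fun hh => hpD (mem_filter.2 ⟨hp, hh⟩)
    have hek : ekv S U L l m K q o ω p.1 p.2 ↔ ekv S U L l m K q o ω' p.1 p.2 := by
      have h1 : ω (Sum.inr (Sum.inr (p.1, p.2))) = ω' (Sum.inr (Sum.inr (p.1, p.2))) := by
        apply h
        intro hh
        exact hne (Sum.inr_injective (Sum.inr_injective hh))
      unfold ekv
      rw [h1]
    have hn : nP S U o m K ω p.1 p.2 ↔ nP S U o m K ω' p.1 p.2 := by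
      unfold nP
      simp only [h2]
    rw [h2, hek, hn]

private theorem cc2_sum {S : CS V κ} {U : Finset V} {L : V → Finset κ} {D l m K : ℕ}
    {x : ℝ} {q : V → κ → ℝ} {Lam : ℝ} {o : V → κ} (h : Hyp S U L D l m K x q Lam)
    (hG : Cho S U L K o) (v : V) :
    (∑ t, cc2 S U L o v t ^ 2) ≤ 450 * (K : ℝ) ^ 4 * l := by
  have hK := h.Kpos
  have hl := h.lpos
  rw [Fintype.sum_sum_type, Fintype.sum_sum_type, Fintype.sum_sum_type]
  have hA2 : ∀ u, ((Aff S U L o v u).card : ℝ) ≤ 2 := by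
    intro u
    exact_mod_cast Aff_card h v u
  have hA0 : ∀ u, (0 : ℝ) ≤ ((Aff S U L o v u).card : ℝ) := fun u => Nat.cast_nonneg _
  have hAs := Aff_sum h hG v
  have hN : ∀ u, ((Nc S U o u).card : ℝ) ≤ 2 * K + 1 := by
    intro u
    exact_mod_cast Nc_card hG u
  have e1 : ∑ w, cc2 S U L o v (Sum.inl (Sum.inl w)) ^ 2 ≤
      2 * (2 * (K : ℝ) + 1) ^ 2 * (((K : ℝ) + 1) * (2 * l)) := by
    have h1 : ∀ w, cc2 S U L o v (Sum.inl (Sum.inl w)) ^ 2 ≤
        2 * (2 * (K : ℝ) + 1) * ∑ u ∈ Nc S U o w, ((Aff S U L o v u).card : ℝ) := by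
      intro w
      have h2 : ∑ u ∈ Nc S U o w, ((Aff S U L o v u).card : ℝ) ≤ 2 * (2 * (K : ℝ) + 1) := by
        calc ∑ u ∈ Nc S U o w, ((Aff S U L o v u).card : ℝ) ≤ ∑ u ∈ Nc S U o w, (2 : ℝ) :=
              sum_le_sum (fun u _ => hA2 u)
          _ = 2 * ((Nc S U o w).card : ℝ) := by rw [sum_const, nsmul_eq_mul, mul_comm]
          _ ≤ 2 * (2 * (K : ℝ) + 1) := mul_le_mul_of_nonneg_left (hN w) (by norm_num)
      have h3 : 0 ≤ ∑ u ∈ Nc S U o w, ((Aff S U L o v u).card : ℝ) :=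
        sum_nonneg (fun u _ => hA0 u)
      show (∑ u ∈ Nc S U o w, ((Aff S U L o v u).card : ℝ)) ^ 2 ≤ _
      rw [pow_two]
      exact mul_le_mul_of_nonneg_right h2 h3
    have h4 : ∑ w, ∑ u ∈ Nc S U o w, ((Aff S U L o v u).card : ℝ) =
        ∑ u, ∑ w ∈ Nc S U o u, ((Aff S U L o v u).card : ℝ) := by
      apply sum_comm'
      intro a b
      constructor
      · rintro ⟨_, hb⟩
        exact ⟨Nc_symm hb, mem_univ _⟩
      · rintro ⟨ha, _⟩
        exact ⟨mem_univ _, Nc_symm ha⟩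
    have h5 : ∑ u, ∑ w ∈ Nc S U o u, ((Aff S U L o v u).card : ℝ) ≤
        (2 * (K : ℝ) + 1) * ∑ u, ((Aff S U L o v u).card : ℝ) := by
      rw [mul_sum]
      apply sum_le_sum
      intro u _
      rw [sum_const, nsmul_eq_mul]
      exact mul_le_mul_of_nonneg_right (hN u) (hA0 u)
    calc ∑ w, cc2 S U L o v (Sum.inl (Sum.inl w)) ^ 2 ≤
        ∑ w, 2 * (2 * (K : ℝ) + 1) * ∑ u ∈ Nc S U o w, ((Aff S U L o v u).card : ℝ) :=
          sum_le_sum (fun w _ => h1 w)
      _ = 2 * (2 * (K : ℝ) + 1) * ∑ u, ∑ w ∈ Nc S U o u, ((Aff S U L o v u).card : ℝ) := by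
          rw [← mul_sum, h4]
      _ ≤ 2 * (2 * (K : ℝ) + 1) * ((2 * (K : ℝ) + 1) * ∑ u, ((Aff S U L o v u).card : ℝ)) :=
          mul_le_mul_of_nonneg_left h5 (by positivity)
      _ ≤ 2 * (2 * (K : ℝ) + 1) * ((2 * (K : ℝ) + 1) * (((K : ℝ) + 1) * (2 * l))) := by gcongr
      _ = 2 * (2 * (K : ℝ) + 1) ^ 2 * (((K : ℝ) + 1) * (2 * l)) := by ring
  have e2 : ∑ w, cc2 S U L o v (Sum.inl (Sum.inr w)) ^ 2 ≤ 2 * (((K : ℝ) + 1) * (2 * l)) := by
    calc ∑ w, cc2 S U L o v (Sum.inl (Sum.inr w)) ^ 2 ≤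
        ∑ w, 2 * ((Aff S U L o v w).card : ℝ) := by
          apply sum_le_sum
          intro w _
          show ((Aff S U L o v w).card : ℝ) ^ 2 ≤ _
          rw [pow_two]
          exact mul_le_mul_of_nonneg_right (hA2 w) (hA0 w)
      _ = 2 * ∑ w, ((Aff S U L o v w).card : ℝ) := by rw [← mul_sum]
      _ ≤ 2 * (((K : ℝ) + 1) * (2 * l)) := mul_le_mul_of_nonneg_left hAs (by norm_num)
  have e3 : ∑ w, cc2 S U L o v (Sum.inr (Sum.inl w)) ^ 2 = 0 := by
    apply sum_eq_zero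
    intro w _
    show (0 : ℝ) ^ 2 = 0
    norm_num
  have e4 : ∑ p, cc2 S U L o v (Sum.inr (Sum.inr p)) ^ 2 ≤ 2 * l := by
    have h1 : ∑ p, cc2 S U L o v (Sum.inr (Sum.inr p)) ^ 2 =
        ∑ p, if p ∈ Cv S U L v then (1 : ℝ) else 0 := by
      apply sum_congr rfl
      intro p _
      show (if p ∈ Cv S U L v then (1 : ℝ) else 0) ^ 2 = _
      split_ifs <;> norm_num
    rw [h1, sum_boole]
    have h2 : (univ.filter (fun p => p ∈ Cv S U L v)) = Cv S U L v := by
      ext p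
      simp
    rw [h2]
    exact h.Cv2 v
  rw [e3]
  have e5 : 2 * (2 * (K : ℝ) + 1) ^ 2 * (((K : ℝ) + 1) * 2) + 2 * (((K : ℝ) + 1) * 2) + 2 ≤
      450 * (K : ℝ) ^ 4 := by
    have h1 : 2 * (K : ℝ) + 1 ≤ 3 * K := by linarith
    have h2 : (K : ℝ) + 1 ≤ 2 * K := by linarith
    have h3 : (2 * (K : ℝ) + 1) ^ 2 ≤ (3 * K) ^ 2 := pow_le_pow_left₀ (by positivity) h1 2
    have h4 : (2 * (K : ℝ) + 1) ^ 2 * ((K : ℝ) + 1) ≤ (3 * K) ^ 2 * (2 * K) :=
      mul_le_mul h3 h2 (by positivity) (by positivity)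
    have h5 : (K : ℝ) ^ 3 ≤ (K : ℝ) ^ 4 := pow_le_pow_right₀ (by linarith) (by norm_num)
    have h6 : (K : ℝ) ≤ (K : ℝ) ^ 4 := by
      calc (K : ℝ) = (K : ℝ) ^ 1 := (pow_one _).symm
        _ ≤ (K : ℝ) ^ 4 := pow_le_pow_right₀ (by linarith) (by norm_num)
    nlinarith
  have e6 := mul_le_mul_of_nonneg_right e5 hl.le
  nlinarith

end

end H80J2

/-- J2 -/
theorem thm_J2 : St_J2 := by
  intro V κ _ _ S U L D l m K x q Lam o h hG v
  refine ⟨cc2 S U L o v, ⟨cc2_nonneg S U L o v, H80J2.cc2_bd v, H80J2.cc2_sum h hG v, ?_⟩⟩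
  intro t ht
  exact near_mono S 5 8 v (pos t) (by norm_num) (cc2_loc v t ht)

end Pool.TCU
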