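import Pool.Agent.Helper93.TCU.SStmts
import Pool.Agent.Helper93.TCU.Bas

/-!
# The S-nibble: statement SB
-/

set_option autoImplicit false

namespace Pool.TCU

open Pool.TC Pool.TCM Pool.TCS Finset
open scoped Classical

namespace H80SB

private theorem bet_bounds {K : ℕ} (hK : 24 ≤ K) : 0 < bet (8 * K) K ∧ bet (8 * K) K ≤ 1 / 192 := by
  have hK' : (24 : ℝ) ≤ K := by exact_mod_cast hK
  have h1 : (192 : ℝ) ≤ ((8 * K : ℕ) : ℝ) := by
    push_cast
    linarith
  have h0 : (0 : ℝ) < ((8 * K : ℕ) : ℝ) := by linarith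
  have h2 : 1 / ((8 * K : ℕ) : ℝ) ≤ 1 / 192 := one_div_le_one_div_of_le (by norm_num) h1
  have h3 : 0 < 1 / ((8 * K : ℕ) : ℝ) := one_div_pos.2 h0
  have h4 : 0 < 1 - 1 / ((8 * K : ℕ) : ℝ) := by linarith
  have h5 : (1 - 1 / ((8 * K : ℕ) : ℝ)) ^ (2 * K) ≤ 1 := pow_le_one₀ h4.le (by linarith)
  have h6 : 0 < (1 - 1 / ((8 * K : ℕ) : ℝ)) ^ (2 * K) := pow_pos h4 _
  unfold bet
  refine ⟨mul_pos h3 h6, ?_⟩
  calc 1 / ((8 * K : ℕ) : ℝ) * (1 - 1 / ((8 * K : ℕ) : ℝ)) ^ (2 * K)
      ≤ 1 / ((8 * K : ℕ) : ℝ) * 1 := mul_le_mul_of_nonneg_left h5 h3.le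
    _ ≤ 1 / 192 := by linarith

/-- arithmetic, rows with many neighbours in the near-cliques -/
private theorem arB {β δ xi k1 kap d h2 l c nK : ℝ} (hβ : 0 < β) (hβ1 : β ≤ 1 / 192)
    (hδ1 : δ ≤ 1) (hd : 0 ≤ d) (hd1 : d ≤ 21 / 5 * xi * kap)
    (hx : 20 * xi ≤ β * k1) (hk0 : 0 < k1) (hk : k1 ≤ kap) (hh : 0 ≤ h2)
    (hh1 : h2 ≤ β * kap ^ 2 / 10) (hl : 0 ≤ l) (hc : c = l * (1 - d))
    (hn : 9 / 10 * kap * l ≤ nK) :
    l * (1 - (β - β ^ 2 * δ / 10)) ≤
      c * (1 - ((β - β ^ 2 * δ / 10) + 2 * β * d + h2)) + nK * (2 / 5 * β * kap) := by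
  have hkap : 0 < kap := lt_of_lt_of_le hk0 hk
  have hq0 : 0 ≤ β - β ^ 2 * δ / 10 := by
    have h1 : β ^ 2 * δ ≤ β ^ 2 := mul_le_of_le_one_right (by positivity) hδ1
    nlinarith
  generalize hq : β - β ^ 2 * δ / 10 = q0 at hq0 ⊢
  have e1 : l * (9 / 25 * (β * kap ^ 2)) ≤ nK * (2 / 5 * β * kap) := by
    have h1 : 0 ≤ 2 / 5 * β * kap := by positivity
    have h2 := mul_le_mul_of_nonneg_right hn h1
    calc l * (9 / 25 * (β * kap ^ 2)) = 9 / 10 * kap * l * (2 / 5 * β * kap) := by ring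
      _ ≤ _ := h2
  have e2 : d + 2 * β * d + h2 ≤ 9 / 25 * (β * kap ^ 2) := by
    have h1 : 2 * β * d ≤ 1 / 96 * d := by nlinarith
    have h3 : xi * kap ≤ β * k1 / 20 * kap := by
      apply mul_le_mul_of_nonneg_right _ hkap.le
      linarith
    have h4 : β * k1 / 20 * kap ≤ β * kap ^ 2 / 20 := by
      have : β * k1 * kap ≤ β * kap * kap := by
        apply mul_le_mul_of_nonneg_right _ hkap.le
        exact mul_le_mul_of_nonneg_left hk hβ.le
      nlinarith
    have h5 : d ≤ 21 / 5 * (β * kap ^ 2 / 20) := by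
      have : 21 / 5 * xi * kap = 21 / 5 * (xi * kap) := by ring
      linarith
    have h6 : 0 ≤ β * kap ^ 2 := by positivity
    linarith
  have e3 : (1 - q0) - (d + 2 * β * d + h2) ≤ (1 - d) * (1 - (q0 + 2 * β * d + h2)) := by
    have h1 : 0 ≤ d * (q0 + 2 * β * d + h2) := by positivity
    nlinarith
  have e4 : l * ((1 - q0) - 9 / 25 * (β * kap ^ 2)) ≤ c * (1 - (q0 + 2 * β * d + h2)) := by
    rw [hc, mul_assoc]
    apply mul_le_mul_of_nonneg_left _ hl
    linarith
  nlinarith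

/-- arithmetic, the other rows -/
private theorem arA {β δ xi k1 kap d l c : ℝ} (hβ : 0 < β) (hβ1 : β ≤ 1 / 192)
    (hδ : 0 < δ) (hδ1 : δ ≤ 1) (hd : 0 ≤ d) (hd1 : d ≤ 21 / 5 * xi * kap) (hxi : 0 ≤ xi)
    (hk0 : 0 < k1) (hk : kap ≤ k1) (hl : 0 ≤ l) (hc : c = l * (1 - d)) :
    l * ((1 - (β - β ^ 2 * δ / 10)) * (1 - 7 * xi * k1)) ≤
      c * (1 - ((β - β ^ 2 * δ / 10) + 2 * β * d)) := by
  have hq0 : 0 ≤ β - β ^ 2 * δ / 10 := by
    have h1 : β ^ 2 * δ ≤ β ^ 2 := mul_le_of_le_one_right (by positivity) hδ1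
    nlinarith
  have hq1 : β - β ^ 2 * δ / 10 ≤ 1 / 192 := by
    have h1 : 0 ≤ β ^ 2 * δ := by positivity
    linarith
  generalize hq : β - β ^ 2 * δ / 10 = q0 at hq0 hq1 ⊢
  have hy : 0 ≤ xi * k1 := by positivity
  have h1 : xi * kap ≤ xi * k1 := mul_le_mul_of_nonneg_left hk hxi
  have h2 : d ≤ 21 / 5 * (xi * k1) := by
    have : 21 / 5 * xi * kap = 21 / 5 * (xi * kap) := by ring
    linarith
  have h3 : 2 * β * d ≤ 1 / 96 * d := by nlinarith
  have e3 : (1 - q0) - (d + 2 * β * d) ≤ (1 - d) * (1 - (q0 + 2 * β * d)) := by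
    have h1 : 0 ≤ d * (q0 + 2 * β * d) := by positivity
    nlinarith
  have e5 : (1 - q0) * (1 - 7 * xi * k1) ≤ (1 - q0) - (d + 2 * β * d) := by
    have h4 : (1 - q0) * (1 - 7 * xi * k1) = (1 - q0) - 7 * (xi * k1) * (1 - q0) := by ring
    have h5 : 7 * (xi * k1) * (191 / 192) ≤ 7 * (xi * k1) * (1 - q0) := by
      apply mul_le_mul_of_nonneg_left _ (by positivity)
      linarith
    rw [h4]
    linarith
  rw [hc]
  calc l * ((1 - q0) * (1 - 7 * xi * k1)) ≤ l * ((1 - d) * (1 - (q0 + 2 * β * d))) :=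
        mul_le_mul_of_nonneg_left (e5.trans e3) hl
    _ = _ := by ring

section

variable {V κ : Type} [Fintype V] [Fintype κ] {S : CS V κ} {U : Finset V} {L : V → Finset κ}
  {D ell ell1 K n L0 : ℕ} {Lam x δ th xi k1 eta h0 nz g : ℝ} {kap : V → ℝ} {hh : V → Prop}
  {kt : V → κ → Prop}

private theorem dd_bounds (hN : N8 D ell ell1 K n L0 Lam x δ th xi k1 eta h0 nz g)
    (hS : SAbs S U L D ell ell1 K x δ th xi k1 eta h0 nz g kap hh kt) {u : V} (hu : u ∈ U) :
    0 ≤ dd L ell u ∧ dd L ell u ≤ 1 ∧ ((L u).card : ℝ) = ell * (1 - dd L ell u) := by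
  have hl : (0 : ℝ) < ell := by exact_mod_cast hN.l0
  have hc : ((L u).card : ℝ) ≤ ell := by exact_mod_cast hS.card u hu
  have h0 : 0 ≤ ((L u).card : ℝ) / ell := div_nonneg (Nat.cast_nonneg _) hl.le
  have h1 : ((L u).card : ℝ) / ell ≤ 1 := by
    rw [div_le_one hl]
    exact hc
  unfold dd
  refine ⟨by linarith, by linarith, ?_⟩
  field_simp
  ring

private theorem q0_bounds (hN : N8 D ell ell1 K n L0 Lam x δ th xi k1 eta h0 nz g) :
    0 ≤ bet (8 * K) K - bet (8 * K) K ^ 2 * δ / 10 ∧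
      bet (8 * K) K - bet (8 * K) K ^ 2 * δ / 10 ≤ bet (8 * K) K := by
  obtain ⟨hβ, hβ1⟩ := bet_bounds hN.K24
  have h1 : bet (8 * K) K ^ 2 * δ ≤ bet (8 * K) K ^ 2 :=
    mul_le_of_le_one_right (by positivity) hN.δ1
  have h2 : 0 ≤ bet (8 * K) K ^ 2 * δ := mul_nonneg (by positivity) hN.δ0.le
  constructor
  · nlinarith
  · linarith

private theorem lists (hN : N8 D ell ell1 K n L0 Lam x δ th xi k1 eta h0 nz g)
    (hS : SAbs S U L D ell ell1 K x δ th xi k1 eta h0 nz g kap hh kt) {u : V} (hu : u ∈ U) :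
    (ell : ℝ) * ((1 - (bet (8 * K) K - bet (8 * K) K ^ 2 * δ / 10)) * (1 - 7 * xi * k1)) ≤
      ∑ a ∈ L u, (1 - qS L ell K δ th k1 kap hh kt u a) := by
  obtain ⟨hβ, hβ1⟩ := bet_bounds hN.K24
  obtain ⟨hd0, hd1, hc⟩ := dd_bounds hN hS hu
  obtain ⟨hq0, hq1⟩ := q0_bounds hN
  have hl : (0 : ℝ) < ell := by exact_mod_cast hN.l0
  have hdum := hS.dum u hu
  by_cases hk : k1 ≤ kap u
  · have hkap : 0 < kap u := lt_of_lt_of_le hN.k10 hk
    have h2 : 0 ≤ (if hh u then 2 * th else 0) ∧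
        (if hh u then 2 * th else 0) ≤ bet (8 * K) K * kap u ^ 2 / 10 := by
      split_ifs with hhu
      · have h1 := hS.kaph u hu hhu
        have h3 := hN.the
        have h4 : 0 ≤ eta := hN.k10.le.trans hN.ke
        have h5 : eta ^ 2 ≤ kap u ^ 2 := pow_le_pow_left₀ h4 h1 2
        have h6 : bet (8 * K) K * eta ^ 2 ≤ bet (8 * K) K * kap u ^ 2 :=
          mul_le_mul_of_nonneg_left h5 hβ.le
        have h7 := hN.th0
        constructor
        · linarith
        · linarith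
      · constructor
        · exact le_rfl
        · positivity
    have key := arB (nK := ((L u).filter (fun a => kt u a)).card) hβ hβ1 hN.δ1 hd0 hdum
      hN.kx hN.k10 hk h2.1 h2.2 hl.le hc (hS.typ u hu hk)
    have hsum : ((L u).card : ℝ) * (1 - ((bet (8 * K) K - bet (8 * K) K ^ 2 * δ / 10) +
        2 * bet (8 * K) K * dd L ell u + (if hh u then 2 * th else 0))) +
        ((L u).filter (fun a => kt u a)).card * (2 / 5 * bet (8 * K) K * kap u) ≤
        ∑ a ∈ L u, (1 - qS L ell K δ th k1 kap hh kt u a) := by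
      have e1 : ((L u).card : ℝ) * (1 - ((bet (8 * K) K - bet (8 * K) K ^ 2 * δ / 10) +
          2 * bet (8 * K) K * dd L ell u + (if hh u then 2 * th else 0))) +
          ((L u).filter (fun a => kt u a)).card * (2 / 5 * bet (8 * K) K * kap u) =
          ∑ a ∈ L u, ((1 - ((bet (8 * K) K - bet (8 * K) K ^ 2 * δ / 10) +
          2 * bet (8 * K) K * dd L ell u + (if hh u then 2 * th else 0))) +
          if kt u a then (2 / 5 * bet (8 * K) K * kap u) else 0) := by
        rw [sum_add_distrib, sum_const, ← sum_filter, sum_const, nsmul_eq_mul, nsmul_eq_mul]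
      rw [e1]
      apply sum_le_sum
      intro a _
      by_cases hkt : kt u a
      · have hq : qS L ell K δ th k1 kap hh kt u a = bet (8 * K) K * (1 - kap u / 2) := by
          unfold qS
          exact if_pos ⟨hkt, hk⟩
        rw [if_pos hkt, hq]
        have h3 := hN.kd
        have h4 : bet (8 * K) K ^ 2 * δ ≤ bet (8 * K) K * kap u := by
          calc bet (8 * K) K ^ 2 * δ = bet (8 * K) K * (bet (8 * K) K * δ) := by ring
            _ ≤ bet (8 * K) K * kap u := mul_le_mul_of_nonneg_left (h3.trans hk) hβ.le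
        have h5 : 0 ≤ bet (8 * K) K * dd L ell u := mul_nonneg hβ.le hd0
        have h6 := h2.1
        nlinarith
      · have hq : qS L ell K δ th k1 kap hh kt u a =
            (bet (8 * K) K - bet (8 * K) K ^ 2 * δ / 10) +
              2 * bet (8 * K) K * dd L ell u + (if hh u then 2 * th else 0) := by
          unfold qS
          exact if_neg (fun h => hkt h.1)
        rw [if_neg hkt, hq, add_zero]
    refine le_trans ?_ (key.trans hsum)
    apply mul_le_mul_of_nonneg_left _ hl.le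
    apply mul_le_of_le_one_right (by linarith)
    have := mul_nonneg hN.xi0 hN.k10.le
    linarith
  · have hnh : ¬ hh u := fun h => hk (hN.ke.trans (hS.kaph u hu h))
    have key := arA hβ hβ1 hN.δ0 hN.δ1 hd0 hdum hN.xi0 hN.k10 (not_le.1 hk).le hl.le hc
    refine key.trans (le_of_eq ?_)
    have e1 : ∀ a ∈ L u, 1 - qS L ell K δ th k1 kap hh kt u a =
        1 - ((bet (8 * K) K - bet (8 * K) K ^ 2 * δ / 10) + 2 * bet (8 * K) K * dd L ell u) := by
      intro a _
      unfold qS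
      rw [if_neg (fun h => hk h.2), if_neg hnh, add_zero]
    rw [sum_congr rfl e1, sum_const, nsmul_eq_mul]

private theorem pq_bounds (hN : N8 D ell ell1 K n L0 Lam x δ th xi k1 eta h0 nz g)
    (hS : SAbs S U L D ell ell1 K x δ th xi k1 eta h0 nz g kap hh kt) {u : V} (hu : u ∈ U)
    {a : κ} (ha : a ∈ L u) :
    0 ≤ pq S U L ell (8 * K) K u a ∧ pq S U L ell (8 * K) K u a ≤ 1 / 96 := by
  obtain ⟨hβ, hβ1⟩ := bet_bounds hN.K24
  have hl : (0 : ℝ) < ell := by exact_mod_cast hN.l0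
  have h1 := hS.hP2 u hu a ha
  have h2 := npair_nonneg S (Pn S U L u a)
  have h3 := npair_le S (Pn S U L u a)
  unfold pq
  set β := bet (8 * K) K with hβdef
  set c : ℝ := ((Pn S U L u a).card : ℝ) with hcdef
  have hc0 : 0 ≤ c := Nat.cast_nonneg _
  have h4 : β * c / ell ≤ 1 / 96 := by
    rw [div_le_iff₀ hl]
    nlinarith
  have h5 : 0 ≤ β * c / ell := by positivity
  have h6 : β ^ 2 / 2 * npair S (Pn S U L u a) / (ell : ℝ) ^ 2 ≤ (β * c / ell) ^ 2 / 4 := by
    have : β ^ 2 / 2 * npair S (Pn S U L u a) / (ell : ℝ) ^ 2 ≤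
        β ^ 2 / 2 * (c ^ 2 / 2) / (ell : ℝ) ^ 2 := by gcongr
    refine this.trans (le_of_eq ?_)
    ring
  have h7 : 0 ≤ β ^ 2 / 2 * npair S (Pn S U L u a) / (ell : ℝ) ^ 2 := by positivity
  constructor
  · nlinarith
  · linarith

private theorem qS_ge (hN : N8 D ell ell1 K n L0 Lam x δ th xi k1 eta h0 nz g)
    (hS : SAbs S U L D ell ell1 K x δ th xi k1 eta h0 nz g kap hh kt) {u : V} (hu : u ∈ U)
    {a : κ} (ha : a ∈ L u) :
    pq S U L ell (8 * K) K u a + 2 * bet (8 * K) K * dd L ell u ≤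
      qS L ell K δ th k1 kap hh kt u a := by
  obtain ⟨hβ, hβ1⟩ := bet_bounds hN.K24
  obtain ⟨hd0, hd1, hc⟩ := dd_bounds hN hS hu
  unfold qS
  split_ifs with h1 h2
  · have h3 := hS.pq1 u hu a ha h1.2
    have h4 := hS.dum u hu
    have h5 := hS.kap0 u
    have h6 : dd L ell u ≤ 21 / 500 * kap u := by
      have : xi * kap u ≤ 1 / 100 * kap u := mul_le_mul_of_nonneg_right hN.xi1 h5
      linarith
    have h7 : bet (8 * K) K * dd L ell u ≤ bet (8 * K) K * (21 / 500 * kap u) :=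
      mul_le_mul_of_nonneg_left h6 hβ.le
    have h8 : 0 ≤ bet (8 * K) K * kap u := mul_nonneg hβ.le h5
    nlinarith
  · have h3 := hS.pq0 u hu a ha
    have h4 := hN.th0
    linarith
  · have h3 := hS.pq0 u hu a ha
    linarith

/-- the killing probabilities, zero outside of `U` -/
private noncomputable def qq (U : Finset V) (L : V → Finset κ) (ell K : ℕ) (δ th k1 : ℝ)
    (kap : V → ℝ) (hh : V → Prop) (kt : V → κ → Prop) (u : V) (a : κ) : ℝ :=
  if u ∈ U then qS L ell K δ th k1 kap hh kt u a else 0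

private theorem hypL (hN : N8 D ell ell1 K n L0 Lam x δ th xi k1 eta h0 nz g)
    (hS : SAbs S U L D ell ell1 K x δ th xi k1 eta h0 nz g kap hh kt) :
    HypL S U L D ell (8 * K) K x (qq U L ell K δ th k1 kap hh kt) Lam where
  deg := hS.deg
  col := hS.col
  card := hS.card
  inj2 := hS.inj2
  hC := hS.hC
  hP := hS.hP2
  hq := by
    intro u hu a ha
    obtain ⟨hβ, hβ1⟩ := bet_bounds hN.K24
    obtain ⟨hd0, hd1, hc⟩ := dd_bounds hN hS hu
    have h1 := qS_ge hN hS hu ha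
    have h2 : 0 ≤ bet (8 * K) K * dd L ell u := mul_nonneg hβ.le hd0
    unfold qq
    rw [if_pos hu]
    linarith
  q0 := by
    intro u a
    unfold qq
    split_ifs with hu
    · obtain ⟨hβ, hβ1⟩ := bet_bounds hN.K24
      obtain ⟨hd0, hd1, hc⟩ := dd_bounds hN hS hu
      obtain ⟨hq0, hq1⟩ := q0_bounds hN
      have h2 : 0 ≤ bet (8 * K) K * dd L ell u := mul_nonneg hβ.le hd0
      have h3 := hN.th0
      unfold qS
      split_ifs with h1 h4
      · have h5 := hS.kap1 u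
        exact mul_nonneg hβ.le (by linarith)
      · linarith
      · linarith
    · exact le_rfl
  q1 := by
    intro u a
    unfold qq
    split_ifs with hu
    · obtain ⟨hβ, hβ1⟩ := bet_bounds hN.K24
      obtain ⟨hd0, hd1, hc⟩ := dd_bounds hN hS hu
      obtain ⟨hq0, hq1⟩ := q0_bounds hN
      have h2 : bet (8 * K) K * dd L ell u ≤ bet (8 * K) K * 1 :=
        mul_le_mul_of_nonneg_left hd1 hβ.le
      have h3 := hN.th1
      unfold qS
      split_ifs with h1 h4
      · have h5 := hS.kap0 u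
        have h6 : 0 ≤ bet (8 * K) K * kap u := mul_nonneg hβ.le h5
        nlinarith
      · linarith
      · linarith
    · norm_num
  l0 := hN.l0
  lD := hN.lD
  x0 := hN.x0
  x1 := hN.x1
  mK := le_rfl
  K24 := hN.K24
  L1 := hN.L1
  LK := hN.LK
  Ll := hN.Ll
  hexp := hN.hexp

private theorem betx (hN : N8 D ell ell1 K n L0 Lam x δ th xi k1 eta h0 nz g) :
    0 ≤ bet (8 * K) K * x / ell ∧ bet (8 * K) K * x / ell ≤ 1 / 96 := by
  obtain ⟨hβ, hβ1⟩ := bet_bounds hN.K24
  have hl : (0 : ℝ) < ell := by exact_mod_cast hN.l0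
  have h1 := hN.x0
  have h2 := hN.x1
  constructor
  · have : (0 : ℝ) ≤ x := by linarith
    positivity
  · rw [div_le_iff₀ hl]
    nlinarith

private theorem Er_nonneg (K : ℕ) (Lam l : ℝ) : 0 ≤ Er K Lam l := by
  unfold Er
  positivity

private theorem ell1_pos (hN : N8 D ell ell1 K n L0 Lam x δ th xi k1 eta h0 nz g) :
    0 < ell1 := by
  have h1 := hN.L0n
  have h2 : (0 : ℝ) < L0 := by exact_mod_cast hN.L00
  rcases Nat.eq_zero_or_pos ell1 with h | h
  · rw [h] at h1
    simp at h1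
    have h3 := hN.L00
    omega
  · exact h

private theorem ell1_le (hN : N8 D ell ell1 K n L0 Lam x δ th xi k1 eta h0 nz g) :
    (ell1 : ℝ) ≤ ell := by
  have h1 := hN.lis
  obtain ⟨hq0, hq1⟩ := q0_bounds hN
  obtain ⟨hb0, hb1⟩ := betx hN
  obtain ⟨hβ, hβ1⟩ := bet_bounds hN.K24
  have hl : (0 : ℝ) < ell := by exact_mod_cast hN.l0
  have h2 := mul_nonneg (Er_nonneg K Lam ell) hl.le
  have h3 : (1 - (bet (8 * K) K - bet (8 * K) K ^ 2 * δ / 10)) *
      (1 - 7 * xi * k1) * (1 - bet (8 * K) K * x / ell) ≤ 1 := by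
    have h4 : 0 ≤ 1 - (bet (8 * K) K - bet (8 * K) K ^ 2 * δ / 10) := by linarith
    have h5 := mul_nonneg hN.xi0 hN.k10.le
    have h6 : (1 - (bet (8 * K) K - bet (8 * K) K ^ 2 * δ / 10)) * (1 - 7 * xi * k1) ≤ 1 := by
      have : (1 - (bet (8 * K) K - bet (8 * K) K ^ 2 * δ / 10)) * (1 - 7 * xi * k1) ≤
          1 - (bet (8 * K) K - bet (8 * K) K ^ 2 * δ / 10) :=
        mul_le_of_le_one_right h4 (by linarith)
      linarith
    calc _ ≤ 1 * (1 - bet (8 * K) K * x / ell) :=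
          mul_le_mul_of_nonneg_right h6 (by linarith)
      _ ≤ 1 := by linarith
  have h7 := mul_le_mul_of_nonneg_left h3 hl.le
  linarith

end

end H80SB

open H80SB in
/-- SB -/
theorem thm_SB (hStep : St_Step3) (hIter : St_Iter2) : St_SB := by
  intro V κ J _ _ _ _ S U L D ell ell1 K n L0 Lam x δ th xi k1 eta h0 nz g nT sT mT kap hh kt
    ctr T hN hS hT hnm hsq
  obtain ⟨hβ, hβ1⟩ := bet_bounds hN.K24
  obtain ⟨hq0, hq1⟩ := q0_bounds hN
  obtain ⟨hb0, hb1⟩ := betx hN
  have hl : (0 : ℝ) < ell := by exact_mod_cast hN.l0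
  have hl1 : (0 : ℝ) < ell1 := by exact_mod_cast ell1_pos hN
  have hl2 := ell1_le hN
  obtain ⟨B, c1, L', hB, hc1, hr1, ha1, hL', hcr, hlist, hcol, hpn, htst⟩ :=
    hStep V κ J S U L D ell (8 * K) K x (qq U L ell K δ th k1 kap hh kt) Lam ctr T
      (fun _ => mT) (hypL hN hS) hT
  have hqU : ∀ u ∈ U, ∀ a, qq U L ell K δ th k1 kap hh kt u a =
      qS L ell K δ th k1 kap hh kt u a := by
    intro u hu a
    unfold qq
    rw [if_pos hu]
  -- lists
  have hlen : ∀ u ∈ U, ell1 ≤ (L' u).card := by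
    intro u hu
    have h1 := hlist u hu
    have h2 := lists hN hS hu
    have h3 : ∑ a ∈ L u, (1 - qq U L ell K δ th k1 kap hh kt u a) *
        (1 - bet (8 * K) K * x / ell) =
        (∑ a ∈ L u, (1 - qS L ell K δ th k1 kap hh kt u a)) *
          (1 - bet (8 * K) K * x / ell) := by
      rw [sum_mul]
      apply sum_congr rfl
      intro a _
      rw [hqU u hu a]
    rw [h3] at h1
    have h4 := mul_le_mul_of_nonneg_right h2 (show 0 ≤ 1 - bet (8 * K) K * x / ell by linarith)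
    have h5 := hN.lis
    have h6 : (ell1 : ℝ) ≤ ((L' u).card : ℝ) := by
      have e : (ell : ℝ) * ((1 - (bet (8 * K) K - bet (8 * K) K ^ 2 * δ / 10)) *
          (1 - 7 * xi * k1)) * (1 - bet (8 * K) K * x / ell) =
          ell * ((1 - (bet (8 * K) K - bet (8 * K) K ^ 2 * δ / 10)) *
          (1 - 7 * xi * k1) * (1 - bet (8 * K) K * x / ell)) := by ring
      linarith
    exact_mod_cast h6
  have htrim : ∀ u, ∃ s : Finset κ, u ∈ U → (s ⊆ L' u ∧ s.card = ell1) := by
    intro u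
    by_cases hu : u ∈ U
    · obtain ⟨s, hs⟩ := exists_subset_card_eq (hlen u hu)
      exact ⟨s, fun _ => hs⟩
    · exact ⟨∅, fun h => absurd h hu⟩
  choose L'' hL'' using htrim
  have hsub : ∀ u ∈ U, L'' u ⊆ L u := fun u hu => (hL'' u hu).1.trans (hL' u hu)
  -- the remaining instance
  have hU' : ∀ u ∈ U \ B, u ∈ U := fun u hu => (mem_sdiff.1 hu).1
  have hCsub : ∀ v, Cv S (U \ B) L'' v ⊆
      (Cv S U L v).filter (fun p => p.1 ∉ B ∧ p.2 ∈ L' p.1) := by
    intro v p hp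
    unfold Cv at hp ⊢
    rw [mem_filter] at hp
    obtain ⟨_, h1, h2, h3⟩ := hp
    have h4 := mem_sdiff.1 h1
    rw [mem_filter, mem_filter]
    exact ⟨⟨mem_univ _, h4.1, hsub _ h4.1 h2, h3⟩, h4.2, (hL'' _ h4.1).1 h2⟩
  have hC' : ∀ v, ((Cv S (U \ B) L'' v).card : ℝ) ≤ (1 - g) * ell1 := by
    intro v
    have h1 : ((Cv S (U \ B) L'' v).card : ℝ) ≤
        (((Cv S U L v).filter (fun p => p.1 ∉ B ∧ p.2 ∈ L' p.1)).card : ℝ) := by
      exact_mod_cast card_le_card (hCsub v)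
    rcases hS.hC2 v with h2 | ⟨h2, h3⟩
    · have h4 : (((Cv S U L v).filter (fun p => p.1 ∉ B ∧ p.2 ∈ L' p.1)).card : ℝ) ≤
          ((Cv S U L v).card : ℝ) := by exact_mod_cast card_le_card (filter_subset _ _)
      linarith
    · have h4 := hcol v
      have h5 : ∀ p ∈ Cv S U L v, (1 - bet (8 * K) K) *
          (1 - qq U L ell K δ th k1 kap hh kt p.1 p.2) + bet (8 * K) K * dd L ell p.1 ≤
          (1 - bet (8 * K) K) * (1 - (bet (8 * K) K - bet (8 * K) K ^ 2 * δ / 10)) *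
            (if hh p.1 then (1 - 2 * th) else 1) := by
        intro p hp
        have hp2 := hp
        unfold Cv at hp2
        rw [mem_filter] at hp2
        have hu := hp2.2.1
        obtain ⟨hd0, hd1, _⟩ := dd_bounds hN hS hu
        rw [hqU p.1 hu]
        unfold qS
        rw [if_neg (fun h => h2 p hp h.1)]
        have hbd : 0 ≤ bet (8 * K) K * dd L ell p.1 := mul_nonneg hβ.le hd0
        have h7 : bet (8 * K) K * (bet (8 * K) K * dd L ell p.1) ≤
            1 / 192 * (bet (8 * K) K * dd L ell p.1) := mul_le_mul_of_nonneg_right hβ1 hbd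
        have hth := hN.th0
        generalize hqe : bet (8 * K) K - bet (8 * K) K ^ 2 * δ / 10 = q0 at hq0 hq1 ⊢
        split_ifs with h6
        · have h8 : 0 ≤ (1 - bet (8 * K) K) * (2 * th * q0) := by
            apply mul_nonneg (by linarith)
            positivity
          nlinarith
        · nlinarith
      have h6 := sum_le_sum h5
      rw [← mul_sum, sum_ite, sum_const, sum_const, nsmul_eq_mul, nsmul_eq_mul, mul_one] at h6
      have h7 : (1 - bet (8 * K) K) * (1 - (bet (8 * K) K - bet (8 * K) K ^ 2 * δ / 10)) *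
          (((Cv S U L v).filter (fun p => hh p.1)).card * (1 - 2 * th) +
            ((Cv S U L v).filter (fun p => ¬ hh p.1)).card) ≤
          (1 - bet (8 * K) K) * (1 - (bet (8 * K) K - bet (8 * K) K ^ 2 * δ / 10)) *
            ((1 - th) * ell + nz) := by
        apply mul_le_mul_of_nonneg_left _ (mul_nonneg (by linarith) (by linarith))
        linarith
      have h8 := hN.col1
      linarith
  have hP' : ∀ u ∈ U \ B, ∀ a ∈ L'' u, ((Pn S (U \ B) L'' u a).card : ℝ) ≤
      (1 - g) * ell1 := by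
    intro u hu a ha
    have huU := hU' u hu
    have haL := hsub u huU ha
    have hsubP : Pn S (U \ B) L'' u a ⊆ (Pn S U L u a).filter (fun w => w ∉ B ∧ a ∈ L' w) := by
      intro w hw
      unfold Pn at hw ⊢
      rw [mem_filter] at hw
      obtain ⟨_, h1, h2, h3⟩ := hw
      have h4 := mem_sdiff.1 h1
      rw [mem_filter, mem_filter]
      exact ⟨⟨mem_univ _, h4.1, h2, hsub _ h4.1 h3⟩, h4.2, (hL'' _ h4.1).1 h3⟩
    have h1 : ((Pn S (U \ B) L'' u a).card : ℝ) ≤
        (((Pn S U L u a).filter (fun w => w ∉ B ∧ a ∈ L' w)).card : ℝ) := by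
      exact_mod_cast card_le_card hsubP
    have h2 := hpn u huU a haL
    have h3 : ∀ w ∈ Pn S U L u a, Mt S U L ell (8 * K) K x
        (qq U L ell K δ th k1 kap hh kt) w a + bet (8 * K) K * dd L ell w ≤
        (1 - bet (8 * K) K) * (1 - bet (8 * K) K * x / ell) := by
      intro w hw
      unfold Pn at hw
      rw [mem_filter] at hw
      obtain ⟨_, hwU, _, haw⟩ := hw
      obtain ⟨hd0, hd1, _⟩ := dd_bounds hN hS hwU
      obtain ⟨hp0, hp1⟩ := pq_bounds hN hS hwU haw
      have h4 := qS_ge hN hS hwU haw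
      have hbd : 0 ≤ bet (8 * K) K * dd L ell w := mul_nonneg hβ.le hd0
      have h5 : 2 * bet (8 * K) K * dd L ell w ≤
          fK S U L ell (8 * K) K (qq U L ell K δ th k1 kap hh kt) w a := by
        unfold fK
        rw [hqU w hwU, le_div_iff₀ (by linarith)]
        nlinarith
      unfold Mt
      have h6 : 0 ≤ (1 - bet (8 * K) K) * (1 - bet (8 * K) K * x / ell) :=
        mul_nonneg (by linarith) (by linarith)
      have h7 : 1 / 2 ≤ (1 - bet (8 * K) K) * (1 - bet (8 * K) K * x / ell) := by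
        nlinarith
      have h8 : (1 - bet (8 * K) K) * (1 - bet (8 * K) K * x / ell) *
          (2 * bet (8 * K) K * dd L ell w) ≤
          (1 - bet (8 * K) K) * (1 - bet (8 * K) K * x / ell) *
          fK S U L ell (8 * K) K (qq U L ell K δ th k1 kap hh kt) w a :=
        mul_le_mul_of_nonneg_left h5 h6
      have h9 : 1 / 2 * (2 * bet (8 * K) K * dd L ell w) ≤
          (1 - bet (8 * K) K) * (1 - bet (8 * K) K * x / ell) *
          (2 * bet (8 * K) K * dd L ell w) :=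
        mul_le_mul_of_nonneg_right h7 (by linarith)
      have e : (1 - bet (8 * K) K) *
          (1 - fK S U L ell (8 * K) K (qq U L ell K δ th k1 kap hh kt) w a) *
          (1 - bet (8 * K) K * x / ell) =
          (1 - bet (8 * K) K) * (1 - bet (8 * K) K * x / ell) -
          (1 - bet (8 * K) K) * (1 - bet (8 * K) K * x / ell) *
          fK S U L ell (8 * K) K (qq U L ell K δ th k1 kap hh kt) w a := by ring
      rw [e]
      linarith
    have h4 := sum_le_sum h3
    rw [sum_const, nsmul_eq_mul] at h4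
    have h5 : ((Pn S U L u a).card : ℝ) *
        ((1 - bet (8 * K) K) * (1 - bet (8 * K) K * x / ell)) ≤
        ((1 + 2 * h0) * ell + nz) * ((1 - bet (8 * K) K) * (1 - bet (8 * K) K * x / ell)) :=
      mul_le_mul_of_nonneg_right (hS.hP u huU a haL) (mul_nonneg (by linarith) (by linarith))
    have h6 := hN.pn1
    linarith
  have hexp' : 4 * Real.exp (-Lam) * ((3 * ((D + 1 : ℕ) : ℝ) + 2) ^ 24 + 1) ≤ 1 := by
    refine le_trans ?_ hN.hexp
    have h1 : ((D + 1 : ℕ) : ℝ) ≤ (((D + 1) ^ 2 : ℕ) : ℝ) := by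
      have : D + 1 ≤ (D + 1) ^ 2 := by nlinarith
      exact_mod_cast this
    have h2 : (0 : ℝ) ≤ ((D + 1 : ℕ) : ℝ) := Nat.cast_nonneg _
    have h3 : (3 * ((D + 1 : ℕ) : ℝ) + 2) ^ 24 ≤ (3 * (((D + 1) ^ 2 : ℕ) : ℝ) + 2) ^ 24 :=
      pow_le_pow_left₀ (by linarith) (by linarith) 24
    apply mul_le_mul_of_nonneg_left _ (by positivity)
    linarith
  have hCs : ∀ v, Cv S (U \ B) L'' v ⊆ Cv S U L v :=
    fun v => (hCsub v).trans (filter_subset _ _)
  have hnm' : ∀ j, nm (U \ B) L'' (T j) ≤ nm U L (T j) := by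
    intro j
    unfold nm
    calc ∑ w ∈ U \ B, ∑ b ∈ L'' w, T j w b ≤ ∑ w ∈ U \ B, ∑ b ∈ L w, T j w b :=
          sum_le_sum (fun w hw => sum_le_sum_of_subset_of_nonneg (hsub w (hU' w hw))
            (fun b _ _ => hT.nn j w b))
      _ ≤ ∑ w ∈ U, ∑ b ∈ L w, T j w b :=
          sum_le_sum_of_subset_of_nonneg sdiff_subset
            (fun w _ _ => sum_nonneg (fun b _ => hT.nn j w b))
  have hsq' : ∀ j, sq S (U \ B) L'' (T j) ≤ sq S U L (T j) := by
    intro j
    unfold sq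
    apply add_le_add
    · unfold rs
      calc ∑ w ∈ U \ B, (∑ b ∈ L'' w, T j w b) ^ 2 ≤ ∑ w ∈ U \ B, (∑ b ∈ L w, T j w b) ^ 2 := by
            apply sum_le_sum
            intro w hw
            apply pow_le_pow_left₀ (sum_nonneg (fun b _ => hT.nn j w b))
            exact sum_le_sum_of_subset_of_nonneg (hsub w (hU' w hw)) (fun b _ _ => hT.nn j w b)
        _ ≤ ∑ w ∈ U, (∑ b ∈ L w, T j w b) ^ 2 :=
            sum_le_sum_of_subset_of_nonneg sdiff_subset (fun w _ _ => sq_nonneg _)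
    · unfold cs
      apply sum_le_sum
      intro v _
      apply pow_le_pow_left₀ (sum_nonneg (fun p _ => hT.nn j p.1 p.2))
      exact sum_le_sum_of_subset_of_nonneg (hCs v) (fun p _ _ => hT.nn j p.1 p.2)
  obtain ⟨c2, hc2, hr2, ha2, ht2⟩ := hIter V κ J S n (U \ B) L'' D ell1 K L0 g Lam nT sT mT ctr T
    hS.deg hS.col (fun u hu => (hL'' u (hU' u hu)).2)
    (fun u hu a ha a' ha' h => hS.inj2 u (hU' u hu) a (hsub u (hU' u hu) ha) a'
      (hsub u (hU' u hu) ha') h) hC' hP' hN.g0 hN.g1 hN.K24 hN.L1 hN.LK hexp' hN.L00 hN.LL0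
    hN.err hN.gn hN.L0n hT (fun j => (hnm' j).trans (hnm j)) (fun j => (hsq' j).trans (hsq j))
  have hpos : ∀ u ∈ B, (if u ∈ B then c1 u else c2 u) = c1 u := fun u hu => if_pos hu
  have hneg : ∀ u, u ∉ B → (if u ∈ B then c1 u else c2 u) = c2 u := fun u hu => if_neg hu
  refine ⟨fun u => if u ∈ B then c1 u else c2 u, ?_, ?_, ?_, ?_⟩
  · intro u hu
    by_cases hb : u ∈ B
    · show (if u ∈ B then c1 u else c2 u) ∈ L u
      rw [hpos u hb]
      exact hc1 u hb
    · show (if u ∈ B then c1 u else c2 u) ∈ L u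
      rw [hneg u hb]
      exact hsub u hu (hc2 u (mem_sdiff.2 ⟨hu, hb⟩))
  · intro u hu w hw huw
    show S.r u (if u ∈ B then c1 u else c2 u) ≠ S.r w (if w ∈ B then c1 w else c2 w)
    by_cases hb : u ∈ B
    · rw [hpos u hb]
      by_cases hb' : w ∈ B
      · rw [hpos w hb']
        exact hr1 u hb w hb' huw
      · rw [hneg w hb']
        have hw' := mem_sdiff.2 ⟨hw, hb'⟩
        exact (hcr w hw u hb huw (c2 w) ((hL'' w hw).1 (hc2 w hw'))).2
    · rw [hneg u hb]
      have hu' := mem_sdiff.2 ⟨hu, hb⟩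
      by_cases hb' : w ∈ B
      · rw [hpos w hb']
        exact ((hcr u hu w hb' huw.symm (c2 u) ((hL'' u hu).1 (hc2 u hu'))).2).symm
      · rw [hneg w hb']
        exact hr2 u hu' w (mem_sdiff.2 ⟨hw, hb'⟩) huw
  · intro u hu w hw huw
    have hne : u ≠ w := fun h => S.irr w (h ▸ huw)
    show (if u ∈ B then c1 u else c2 u) ≠ (if w ∈ B then c1 w else c2 w)
    by_cases hb : u ∈ B
    · rw [hpos u hb]
      by_cases hb' : w ∈ B
      · rw [hpos w hb']
        exact ha1 u hb w hb' huw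
      · rw [hneg w hb']
        have hw' := mem_sdiff.2 ⟨hw, hb'⟩
        intro h
        exact (hcr w hw u hb hne (c2 w) ((hL'' w hw).1 (hc2 w hw'))).1 ⟨S.symm _ _ huw, h⟩
    · rw [hneg u hb]
      have hu' := mem_sdiff.2 ⟨hu, hb⟩
      by_cases hb' : w ∈ B
      · rw [hpos w hb']
        intro h
        exact (hcr u hu w hb' hne.symm (c2 u) ((hL'' u hu).1 (hc2 u hu'))).1 ⟨huw, h.symm⟩
      · rw [hneg w hb']
        exact ha2 u hu' w (mem_sdiff.2 ⟨hw, hb'⟩) huw
  · intro j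
    show ∑ u ∈ U, T j u (if u ∈ B then c1 u else c2 u) ≤ _
    have e1 := sum_sdiff hB (f := fun u => T j u (if u ∈ B then c1 u else c2 u))
    have e2 : ∑ u ∈ B, T j u (if u ∈ B then c1 u else c2 u) = ∑ u ∈ B, T j u (c1 u) :=
      sum_congr rfl (fun u hu => by rw [hpos u hu])
    have e3 : ∑ u ∈ U \ B, T j u (if u ∈ B then c1 u else c2 u) =
        ∑ u ∈ U \ B, T j u (c2 u) :=
      sum_congr rfl (fun u hu => by rw [hneg u (mem_sdiff.1 hu).2])
    have h1 := htst j
    have h2 := ht2 j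
    have hm : 0 ≤ mT := hT.pos j
    have hn0 : 0 ≤ nm U L (T j) := by
      unfold nm
      exact sum_nonneg (fun w _ => sum_nonneg (fun b _ => hT.nn j w b))
    have hnT : 0 ≤ nT := hn0.trans (hnm j)
    have hK : (24 : ℝ) ≤ K := by exact_mod_cast hN.K24
    have hL0 : (0 : ℝ) < L0 := by exact_mod_cast hN.L00
    have hLam : 0 ≤ Lam := by linarith [hN.L1]
    have hE : 0 ≤ (n : ℝ) * (64 * (K : ℝ) ^ 2 * Real.sqrt (sT * Lam)) / L0 := by positivity
    have h3 : nm U L (T j) / ell ≤ nT / ell1 := div_le_div₀ hnT (hnm j) hl1 hl2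
    have h3' : 0 ≤ nm U L (T j) / ell := div_nonneg hn0 hl.le
    have h4 : ∑ w ∈ B, T j w (c1 w) ≤ Ht n K Lam ell1 L0 nT sT mT := by
      unfold Ht
      generalize (n : ℝ) * (64 * (K : ℝ) ^ 2 * Real.sqrt (sT * Lam)) / L0 = E at hE ⊢
      have h5 : bet (8 * K) K * nm U L (T j) / ell ≤ nT / ell1 + E := by
        have : bet (8 * K) K * nm U L (T j) / ell = bet (8 * K) K * (nm U L (T j) / ell) := by
          ring
        rw [this]
        have h6 : bet (8 * K) K * (nm U L (T j) / ell) ≤ 1 * (nm U L (T j) / ell) :=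
          mul_le_mul_of_nonneg_right (by linarith) h3'
        linarith
      have h6 : Real.sqrt ((mT * nm U L (T j) / ell + Lam * mT ^ 2) * Lam) ≤
          Real.sqrt ((mT * (nT / ell1 + E) + Lam * mT ^ 2) * Lam) := by
        apply Real.sqrt_le_sqrt
        apply mul_le_mul_of_nonneg_right _ hLam
        have : mT * nm U L (T j) / ell = mT * (nm U L (T j) / ell) := by ring
        rw [this]
        have h7 : mT * (nm U L (T j) / ell) ≤ mT * (nT / ell1 + E) :=
          mul_le_mul_of_nonneg_left (by linarith) hm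
        linarith
      have h7 : 12 * (K : ℝ) * Real.sqrt ((mT * nm U L (T j) / ell + Lam * mT ^ 2) * Lam) ≤
          12 * K * Real.sqrt ((mT * (nT / ell1 + E) + Lam * mT ^ 2) * Lam) :=
        mul_le_mul_of_nonneg_left h6 (by positivity)
      have h8 : 0 ≤ (nT / ell1 + E) +
          12 * K * Real.sqrt ((mT * (nT / ell1 + E) + Lam * mT ^ 2) * Lam) := by
        have : 0 ≤ nT / (ell1 : ℝ) := div_nonneg hnT hl1.le
        positivity
      have h9 : (1 : ℝ) ≤ n + 200 * K := by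
        have : (0 : ℝ) ≤ n := Nat.cast_nonneg _
        linarith
      have h10 := le_mul_of_one_le_left h8 h9
      refine (h1.trans ?_).trans h10
      exact add_le_add h5 h7
    linarith

end Pool.TCU
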